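import Pool.Agent.Lib.MP_50bb2e_nt.MT.Iface

/-!
Module SEQ: the tower (iteration of STEP).
-/

open NumberField IsDedekindDomain Filter Topology

namespace Pool.Agent.Lib.MP_50bb2e_nt.MT.H59

/-- For a finite set of places there is a subgroup of finite index of classes which are trivial
there. -/
theorem exists_subgroup (h2 : LfiS) (h3 : LinS) (F : Type) [Field F] [NumberField F]
    (S : Set (Pl F)) (hS : S.Finite) :
    ∃ H : Subgroup (Quad F), H.FiniteIndex ∧ ∀ q ∈ H, ∀ p ∈ S, TrivAt p q := by
  induction S, hS using Set.Finite.induction_on with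
  | empty => exact ⟨⊤, inferInstance, fun q _ p hp => absurd hp (Set.notMem_empty p)⟩
  | insert _ _ ih =>
    rename_i a S' _ _
    obtain ⟨H, hH, hq⟩ := ih
    have ha : ∃ K : Subgroup (Quad F), K.FiniteIndex ∧ ∀ q, q ∈ K ↔ TrivAt a q := by
      cases a with
      | inl v => exact h2 F v
      | inr w => exact h3 F w
    obtain ⟨K, hK, hK'⟩ := ha
    refine ⟨H ⊓ K, inferInstance, ?_⟩
    intro q hqm p hp
    rcases Set.mem_insert_iff.1 hp with rfl | hp
    · exact (hK' q).1 (Subgroup.mem_inf.1 hqm).2
    · exact hq q (Subgroup.mem_inf.1 hqm).1 p hp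

/-- One step of the construction. -/
theorem next (h1 : StepS) (h2 : LfiS) (h3 : LinS) (h4 : CexS) (h5 : CndS) (F : Type) [Field F]
    [NumberField F] (E : Set (Quad F)) (hE : PosUpper E) (Q : Set (Pr F))
    (hQ : ¬ Summable (fun v : Q => (1 : ℝ) / (nm (v : Pr F) : ℝ))) (B : Set (Pr F))
    (hB : B.Finite) (S : Set (Pl F)) (hS : S.Finite) :
    ∃ (psi : Quad F) (v w : Pr F), v ≠ w ∧ v ∈ Q ∧ w ∈ Q ∧ v ∉ B ∧ w ∉ B ∧
      {u : Pr F | condExp u psi ≠ 0} = {v, w} ∧ (∀ p ∈ S, TrivAt p psi) ∧
      PosUpper {q : Quad F | q ∈ E ∧ q * psi ∈ E} := by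
  have hbad := (h4 F).1
  obtain ⟨H, hH, hH'⟩ := exists_subgroup h2 h3 F
    (S ∪ Sum.inl '' {v : Pr F | v.valuation F 2 ≠ 1}) (hS.union (hbad.image _))
  obtain ⟨psi, v, w, hp, hvw, hv, hw, hv', hw', hodd, hpos⟩ := h1 F E hE Q hQ B hB H hH
  refine ⟨psi, v, w, hvw, hv, hw, hv', hw', ?_, fun p hps => hH' psi hp p (Or.inl hps), hpos⟩
  rw [(h5 F).2.2 psi fun u hu => hH' psi hp _ (Or.inr ⟨u, hu, rfl⟩)]
  exact hodd

/-- The state of the construction: the list of the classes, the current set, the used primes. -/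
def St (F : Type) [Field F] [NumberField F] : Type :=
  {s : List (Quad F) × Set (Quad F) × Set (Pr F) // PosUpper s.2.1 ∧ s.2.2.Finite}

theorem seq (h1 : StepS) (h2 : LfiS) (h3 : LinS) (h4 : CexS) (h5 : CndS) : SeqS := by
  classical
  intro F _ _ E hE R
  have hn : ∀ s : St F, ∃ (psi : Quad F) (v w : Pr F), v ≠ w ∧ v ∈ R.P s.1.1 ∧ w ∈ R.P s.1.1 ∧
      v ∉ s.1.2.2 ∧ w ∉ s.1.2.2 ∧ {u : Pr F | condExp u psi ≠ 0} = {v, w} ∧
      (∀ p ∈ R.S s.1.1, TrivAt p psi) ∧
      PosUpper {q : Quad F | q ∈ s.1.2.1 ∧ q * psi ∈ s.1.2.1} := fun s =>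
    next h1 h2 h3 h4 h5 F s.1.2.1 s.2.1 (R.P s.1.1) (R.diverges s.1.1) s.1.2.2 s.2.2
      (R.S s.1.1) (R.finite s.1.1)
  choose f v w hvw hv hw hv' hw' hc ht hp using hn
  let nx : St F → St F := fun s =>
    ⟨(s.1.1 ++ [f s], {q : Quad F | q ∈ s.1.2.1 ∧ q * f s ∈ s.1.2.1}, s.1.2.2 ∪ {v s, w s}),
      hp s, s.2.2.union (Set.toFinite _)⟩
  let st : ℕ → St F := fun n => Nat.rec ⟨([], E, ∅), hE, Set.finite_empty⟩ (fun _ s => nx s) n
  have st0 : st 0 = ⟨([], E, ∅), hE, Set.finite_empty⟩ := rfl
  have stS : ∀ n, st (n + 1) = nx (st n) := fun n => rfl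
  let psi : ℕ → Quad F := fun n => f (st n)
  have hL : ∀ n, (st n).1.1 = (List.range n).map psi := by
    intro n
    induction n with
    | zero => rfl
    | succ n ih =>
      rw [stS]
      show (st n).1.1 ++ [f (st n)] = _
      rw [ih, List.range_succ, List.map_append]
      rfl
  have hB : ∀ i j, i < j → ∀ u : Pr F, condExp u (psi i) ≠ 0 → u ∈ (st j).1.2.2 := by
    intro i j hij
    induction j, hij using Nat.le_induction with
    | base =>
      intro u hu
      have h6 : u ∈ {u : Pr F | condExp u (f (st i)) ≠ 0} := hu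
      rw [hc] at h6
      exact Or.inr h6
    | succ j _ ih =>
      intro u hu
      exact Or.inl (ih u hu)
  have hdis : ∀ i j, i < j → ∀ u : Pr F, ¬ (condExp u (psi i) ≠ 0 ∧ condExp u (psi j) ≠ 0) := by
    rintro i j hij u ⟨hi, hj⟩
    have h6 := hB i j hij u hi
    have h7 : u ∈ {u : Pr F | condExp u (f (st j)) ≠ 0} := hj
    rw [hc] at h7
    rcases h7 with h7 | h7
    · exact hv' (st j) (h7 ▸ h6)
    · exact hw' (st j) (h7 ▸ h6)
  refine ⟨psi, ⟨?_, ?_, ?_⟩, ?_⟩
  · intro i
    refine ⟨v (st i), w (st i), hvw _, ?_, ?_, hc _⟩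
    · rw [← hL]
      exact hv _
    · rw [← hL]
      exact hw _
  · intro i p hpi
    rw [← hL] at hpi
    exact ht _ p hpi
  · intro i j hij u hu
    rcases lt_or_gt_of_ne hij with h | h
    · exact hdis i j h u hu
    · exact hdis j i h u ⟨hu.2, hu.1⟩
  · intro k
    have hE' : (st k).1.2.1 =
        {q : Quad F | ∀ I ∈ (Finset.range k).powerset, q * ∏ i ∈ I, psi i ∈ E} := by
      induction k with
      | zero =>
        rw [st0]
        ext q
        simp
      | succ k ih =>
        rw [stS]
        show {q : Quad F | q ∈ (st k).1.2.1 ∧ q * psi k ∈ (st k).1.2.1} = _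
        rw [ih]
        ext q
        simp only [Set.mem_ofPred_eq, Finset.mem_powerset]
        constructor
        · rintro ⟨ha, hb⟩ I hI
          by_cases hk : k ∈ I
          · have h8 : I.erase k ⊆ Finset.range k := by
              intro i hi
              have h9 := hI (Finset.mem_of_mem_erase hi)
              rw [Finset.mem_range] at h9 ⊢
              have := Finset.ne_of_mem_erase hi
              omega
            have h9 := hb _ h8
            rwa [mul_assoc, Finset.mul_prod_erase I psi hk] at h9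
          · refine ha I fun i hi => ?_
            have h9 := hI hi
            rw [Finset.mem_range] at h9 ⊢
            have : i ≠ k := fun h => hk (h ▸ hi)
            omega
        · intro h
          constructor
          · intro I hI
            exact h I (hI.trans (Finset.range_mono (Nat.le_succ k)))
          · intro I hI
            have hk : k ∉ I := fun hk => by
              have := hI hk
              simp at this
            have h9 := h (insert k I) (by
              intro i hi
              rcases Finset.mem_insert.1 hi with rfl | hi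
              · simp
              · have := hI hi
                rw [Finset.mem_range] at this ⊢
                omega)
            rwa [Finset.prod_insert hk, ← mul_assoc] at h9
    rw [← hE']
    exact (st k).2.1

end Pool.Agent.Lib.MP_50bb2e_nt.MT.H59
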